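import Mathlib
import Pool.Prelude.Def_F_c31e40fa
import Pool.Agent.V1186.CN.Cyc4

/-!
# The periods of the attracting cycles near a parameter of the Multibrot set with a Lyapunov exponent

Let `c₀` be a parameter of the Multibrot set `M_d` whose critical value has the Lyapunov exponent
`χ > 0`; this is so at the landing point of almost every parameter ray, with `χ = log d`. We prove that
for `|c - c₀| = r` small all the cycles of `z ^ d + c` of a period at most `(1 - ε) log (1/r) / χ` are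
repelling, uniformly: the multiplier is at least `Λ ^ p`, `p` the period, where `Λ > 1` depends on `c₀`
only. Hence the distance from `c₀` to the parameters with an attracting (or a non-repelling) cycle of a
period at most `n` is `exp (-(χ + o(1)) n)`, and the smallest period of such a cycle for a parameter in
the disc of radius `r` is `(1/χ + o(1)) log (1/r)`.
-/

set_option autoImplicit false

open Set Filter Metric MeasureTheory Topology

namespace Pool.Agent.Results.MP_c35c17_an.AttractingPeriods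

open Pool.Agent.H713R2 (IsExteriorMap)

/-- The polynomial `z ^ d + c`. -/
def f (d : ℕ) (c : ℂ) : ℂ → ℂ := fun z => z ^ d + c

/-- The Multibrot set `M_d`. -/
def M (d : ℕ) : Set ℂ := N62a1eb23.multibrotSet d

/-- `z` is a periodic point of `z ^ d + c` of period `p` (or of a divisor of `p`). -/
def Periodic (d : ℕ) (c z : ℂ) (p : ℕ) : Prop := 1 ≤ p ∧ (f d c)^[p] z = z

/-- The modulus of the derivative of the `p`-th iterate of `z ^ d + c` at `z`: the modulus of the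
multiplier if `z` is periodic of period `p`. -/
noncomputable def mult (d : ℕ) (c z : ℂ) (p : ℕ) : ℝ := ‖deriv ((f d c)^[p]) z‖

/-- The parameters for which the critical point `0` is periodic of a period at most `n`. -/
def Superattracting (d n : ℕ) : Set ℂ := {c | ∃ p : ℕ, p ≤ n ∧ Periodic d c 0 p}

/-- The parameters with an attracting cycle of a period at most `n`. -/
def Attracting (d n : ℕ) : Set ℂ := {c | ∃ p ≤ n, ∃ z : ℂ, Periodic d c z p ∧ mult d c z p < 1}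

/-- The parameters with a non-repelling cycle of a period at most `n`. -/
def NonRepelling (d n : ℕ) : Set ℂ := {c | ∃ p ≤ n, ∃ z : ℂ, Periodic d c z p ∧ mult d c z p ≤ 1}

/-- `S n` lies between `Superattracting d n` and `NonRepelling d n`, for all `n`. -/
def Between (d : ℕ) (S : ℕ → Set ℂ) : Prop :=
  ∀ n : ℕ, Superattracting d n ⊆ S n ∧ S n ⊆ NonRepelling d n

/-- The smallest `n` for which `S n` meets the open disc of radius `r` about `c₀`. -/
noncomputable def first (c₀ : ℂ) (S : ℕ → Set ℂ) (r : ℝ) : ℕ :=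
  sInf {n : ℕ | ∃ c ∈ S n, dist c c₀ < r}

/-- The critical value of `z ^ d + c`, `c ∈ M_d`, has the Lyapunov exponent `χ > 0`. -/
def Lyapunov (d : ℕ) (χ : ℝ) (c : ℂ) : Prop :=
  0 < χ ∧ c ∈ M d ∧ Tendsto (fun n : ℕ => Real.log ‖deriv ((f d c)^[n]) c‖ / n) atTop (𝓝 χ)

theorem mult_zero {d : ℕ} (hd : 2 ≤ d) (c : ℂ) {p : ℕ} (hp : 1 ≤ p) : mult d c 0 p = 0 := by
  obtain ⟨q, rfl⟩ : ∃ q, p = q + 1 := ⟨p - 1, by omega⟩
  have h1 := Pool.Agent.V1186.CN.mu_f d c 0 (q + 1)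
  have h2 : Pool.Agent.V1186.CN.mu (Pool.Agent.TH279.MD.f d c) 0 (q + 1) = 0 := by
    unfold Pool.Agent.V1186.CN.mu
    apply Finset.prod_eq_zero (Finset.mem_range.2 (Nat.succ_pos q))
    rw [Function.iterate_zero, id_eq, Pool.Agent.V1186.CN.deriv_f', zero_pow (by omega), mul_zero]
  rw [h2] at h1
  show ‖deriv ((Pool.Agent.TH279.MD.f d c)^[q + 1]) 0‖ = 0
  rw [← h1, norm_zero]

theorem sup_sub {d : ℕ} (hd : 2 ≤ d) (n : ℕ) : Superattracting d n ⊆ Attracting d n := by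
  rintro c ⟨p, hpn, hp⟩
  exact ⟨p, hpn, 0, hp, by rw [mult_zero hd c hp.1]; norm_num⟩

theorem att_sub (d n : ℕ) : Attracting d n ⊆ NonRepelling d n := by
  rintro c ⟨p, hpn, z, hz, hm⟩
  exact ⟨p, hpn, z, hz, hm.le⟩

theorem mem_le {d : ℕ} (hd : 2 ≤ d) {c : ℂ} (h : c ∈ M d) : ‖c‖ ≤ 2 :=
  Pool.Agent.TH279.MD.norm_le_two hd h

/-- the cycles near the parameter -/
theorem main {d : ℕ} (hd : 2 ≤ d) {χ : ℝ} {c₀ : ℂ} (h : Lyapunov d χ c₀) :
    ∃ Λ : ℝ, 1 < Λ ∧ (∀ (z : ℂ) (p : ℕ), Periodic d c₀ z p → Λ ^ p ≤ mult d c₀ z p) ∧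
      ∀ ε : ℝ, 0 < ε → ε < 1 → ∃ r₀ : ℝ, 0 < r₀ ∧ ∀ (c : ℂ) (r : ℝ), 0 < r → r ≤ r₀ →
        ‖c - c₀‖ ≤ r → ∀ (z : ℂ) (p : ℕ), Periodic d c z p →
          (p : ℝ) ≤ (1 - ε) * Real.log (1 / r) / χ → Λ ^ p ≤ mult d c z p := by
  have hL : Pool.Agent.Y298.CA.Lyap d χ c₀ := h
  have hc2 := mem_le hd h.2.1
  obtain ⟨Λ, hΛ, H⟩ := Pool.Agent.V1186.CN.cycles' hd hL
  refine ⟨Λ, hΛ, ?_, ?_⟩
  · intro z p hz
    obtain ⟨r₀, hr₀, H'⟩ := H (1 / 2) (by norm_num) (by norm_num)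
    exact Pool.Agent.V1186.CN.cycles_self hd hL hr₀ H' hz.1 hz.2
      (Pool.Agent.V1186.CN.cyc_in (fun w hw => Pool.Agent.V1186.CN.esc_uni hd (by linarith) hw)
        hz.1 hz.2)
  · intro ε hε hε1
    obtain ⟨r₀, hr₀, H'⟩ := H ε hε hε1
    refine ⟨min r₀ 1, lt_min hr₀ one_pos, ?_⟩
    intro c r hr hrr hcr z p hz hp
    have hc3 : ‖c‖ ≤ 3 := by
      have h1 : r ≤ 1 := hrr.trans (min_le_right _ _)
      calc ‖c‖ = ‖(c - c₀) + c₀‖ := by congr 1; ring
        _ ≤ ‖c - c₀‖ + ‖c₀‖ := norm_add_le _ _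
        _ ≤ 3 := by linarith
    refine H' (f d c) r hr (hrr.trans (min_le_left _ _)) ⟨?_, fun w _ => ?_⟩ z p hz.1 ?_ hz.2
      (Pool.Agent.V1186.CN.cyc_in (fun w hw => Pool.Agent.V1186.CN.esc_uni hd hc3 hw) hz.1 hz.2)
    · unfold f
      fun_prop
    · show ‖w ^ d + c - (w ^ d + c₀)‖ ≤ r
      rw [add_sub_add_left_eq_sub]
      exact hcr
    · rw [one_div, Real.log_inv] at hp
      exact hp

theorem far {d : ℕ} (hd : 2 ≤ d) {χ : ℝ} {c₀ : ℂ} (h : Lyapunov d χ c₀) {S : ℕ → Set ℂ}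
    (hS : Between d S) : Pool.Agent.V1186.CN.Far χ c₀ S := by
  intro ε hε hε1
  obtain ⟨Λ, hΛ, -, H⟩ := main hd h
  obtain ⟨r₀, hr₀, H'⟩ := H ε hε hε1
  refine ⟨r₀, hr₀, fun n a ha s hs hss hds => ?_⟩
  obtain ⟨p, hpn, z, hz, hm⟩ := (hS n).2 ha
  by_contra hcon
  rw [not_lt] at hcon
  have hpR : (p : ℝ) ≤ n := by exact_mod_cast hpn
  have h1 := H' a s hs hss (by rwa [← dist_eq_norm]) z p hz (by
    rw [one_div, Real.log_inv]
    linarith)
  have h2 : 1 < Λ ^ p := one_lt_pow₀ hΛ (by have := hz.1; omega)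
  linarith

/-- **The periods of the attracting cycles near a parameter with a Lyapunov exponent.** -/
theorem result (d : ℕ) (hd : 2 ≤ d) :
    Between d (Superattracting d) ∧ Between d (Attracting d) ∧ Between d (NonRepelling d) ∧
    (∀ (χ : ℝ) (c₀ : ℂ), Lyapunov d χ c₀ →
      -- (A) all the cycles of small period are uniformly repelling
      (∃ Λ : ℝ, 1 < Λ ∧ (∀ (z : ℂ) (p : ℕ), Periodic d c₀ z p → Λ ^ p ≤ mult d c₀ z p) ∧
        ∀ ε : ℝ, 0 < ε → ε < 1 → ∃ r₀ : ℝ, 0 < r₀ ∧ ∀ (c : ℂ) (r : ℝ), 0 < r → r ≤ r₀ →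
          ‖c - c₀‖ ≤ r → ∀ (z : ℂ) (p : ℕ), Periodic d c z p →
            (p : ℝ) ≤ (1 - ε) * Real.log (1 / r) / χ → Λ ^ p ≤ mult d c z p) ∧
      -- (B) distance and smallest period
      ∀ S, Between d S →
        Tendsto (fun n : ℕ => -Real.log (infDist c₀ (S n)) / n) atTop (𝓝 χ) ∧
        Tendsto (fun r : ℝ => Real.log (1 / r) / first c₀ S r) (𝓝[>] 0) (𝓝 χ)) ∧
    -- (C) almost every ray
    (∃ ψ : ℂ → ℂ, IsExteriorMap (M d) ψ) ∧
    ∀ ψ : ℂ → ℂ, IsExteriorMap (M d) ψ → ∀ᵐ θ : ℝ, ∃ c₀ ∈ frontier (M d),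
      Tendsto (fun r : ℝ => ψ (r * Complex.exp (θ * Complex.I))) (𝓝[>] 1) (𝓝 c₀) ∧
      Lyapunov d (Real.log d) c₀ := by
  refine ⟨fun n => ⟨subset_rfl, (sup_sub hd n).trans (att_sub d n)⟩,
    fun n => ⟨sup_sub hd n, att_sub d n⟩, fun n => ⟨(sup_sub hd n).trans (att_sub d n), subset_rfl⟩,
    fun χ c₀ h => ⟨main hd h, fun S hS => ?_⟩, ?_, ?_⟩
  · have hL : Pool.Agent.Y298.CA.Lyap d χ c₀ := h
    have hu : ∀ c' : ℂ, dist (id c') c₀ ≤ ‖c' - c₀‖ := fun c' => by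
      rw [dist_eq_norm]
      exact le_rfl
    have hcen : ∀ n, id '' Pool.Agent.V1186.CN.cen d n ⊆ S n := by
      rintro n _ ⟨c', ⟨p, h1, h2, h3⟩, rfl⟩
      exact (hS n).1 ⟨p, h2, h1, h3⟩
    have hF := far hd h hS
    refine ⟨hF.lim hd hL id hu hcen, ?_⟩
    refine (hF.first_lim hd hL id hu hcen).congr fun r => ?_
    rw [one_div, Real.log_inv]
    rfl
  · obtain ⟨β, hβ⟩ := Pool.Agent.H713R2.exists_beta (d := d) hd
    exact ⟨_, Pool.Agent.H713R2.exteriorMap_of_beta hβ⟩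
  · obtain ⟨β, hβ⟩ := Pool.Agent.H713R2.exists_beta (d := d) hd
    intro ψ hψ
    filter_upwards [Pool.Agent.Y272.TY.ae_neg' (Pool.Agent.Y272.TY.typical_all hd hβ)] with θ hθ
    obtain ⟨c₀, A, R, h⟩ := hθ
    exact ⟨c₀, h.frontier hd hβ, h.tendsto_psi hβ hψ, Pool.Agent.Y298.CA.lyap_of_typ hd hβ h⟩

end Pool.Agent.Results.MP_c35c17_an.AttractingPeriods
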