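import Mathlib
import Pool.Prelude.Def_F_c31e40fa
import Pool.Agent.V1186.CN.Cnt6

/-!
# The number of the superattracting parameters of period `n` in small discs about typical parameters

Let `c₀` be a parameter of the Multibrot set `M_d` whose critical value has a Lyapunov exponent `χ > 0`
(for instance the landing point of almost every parameter ray, with `χ = log d`). We count the
parameters `c` in the disc of radius `r` about `c₀` for which the critical point `0` of `z ^ d + c` is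
periodic of exact period `n` (the centres of the hyperbolic components of period `n`):

* there are none for `n < (1 - o(1)) log (1/r) / χ`, and at most `d ^ n r ^ (log d / χ - o(1))` for all `n`;
* there are at least `d ^ n r ^ (log d / χ + o(1))` for all `n ≥ (1 + o(1)) log (1/r) / χ`, `n ≤ r ^ (-a)`
  (and at least `d ^ n / n ^ 3` for all larger `n`).

In particular, all large `n` are exact periods of superattracting parameters at distance
`exp (-(χ + o(1)) n)`, and not less, from `c₀`.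
-/

set_option autoImplicit false

open Set Filter Metric MeasureTheory Topology

namespace Pool.Agent.Results.MP_c35c17_an.CentresInDiscs

open Pool.Agent.H713R2 (IsExteriorMap)

/-- The polynomial `z ^ d + c`. -/
def f (d : ℕ) (c : ℂ) : ℂ → ℂ := fun z => z ^ d + c

/-- The Multibrot set `M_d`. -/
def M (d : ℕ) : Set ℂ := N62a1eb23.multibrotSet d

/-- The modulus of the derivative of the `n`-th iterate at the critical value. -/
noncomputable def der (d : ℕ) (c : ℂ) (n : ℕ) : ℝ := ‖deriv ((f d c)^[n]) c‖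

/-- The critical value of `z ^ d + c`, `c ∈ M_d`, has the Lyapunov exponent `χ > 0`. -/
def Lyapunov (d : ℕ) (χ : ℝ) (c : ℂ) : Prop :=
  0 < χ ∧ c ∈ M d ∧ Tendsto (fun n : ℕ => Real.log (der d c n) / n) atTop (𝓝 χ)

/-- The parameters `c` with `f_c^n(0) = 0`. -/
def Z (d n : ℕ) : Set ℂ := {c | (f d c)^[n] 0 = 0}

/-- The parameters `c` for which `0` is periodic of exact period `n`. -/
def E (d n : ℕ) : Set ℂ := {c | (f d c)^[n] 0 = 0 ∧ ∀ j, 1 ≤ j → j < n → (f d c)^[j] 0 ≠ 0}

/-- The part of a set of parameters in the disc of radius `r` about `c₀`. -/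
def near (c₀ : ℂ) (r : ℝ) (S : Set ℂ) : Set ℂ := {c | ‖c - c₀‖ < r ∧ c ∈ S}

/-- The estimates of the numbers of the parameters with `f_c^n(0) = 0`, and with exact period `n`, in the
discs about `c₀`, with the exponent `D` and the Lyapunov exponent `χ`. -/
def Counts (d : ℕ) (χ D : ℝ) (c₀ : ℂ) : Prop :=
  ∀ ε : ℝ, 0 < ε → ε ≤ 1 / 8 → ∃ r₀ : ℝ, 0 < r₀ ∧ ∀ r : ℝ, 0 < r → r < r₀ → ∀ n : ℕ, 1 ≤ n →
    (near c₀ r (Z d n)).Finite ∧
    ((near c₀ r (Z d n)).ncard : ℝ) ≤ (d : ℝ) ^ n * r ^ ((1 - ε) * D) ∧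
    ((1 + ε) * Real.log (1 / r) / χ ≤ n →
      (d : ℝ) ^ n * min (r ^ ((1 + ε) * D)) (1 / (n : ℝ) ^ 3) ≤ (near c₀ r (E d n)).ncard)

/-- Counting the centres of the hyperbolic components in small discs about typical parameters. -/
theorem result (d : ℕ) (hd : 2 ≤ d) :
    -- (0) these parameters have an attracting cycle
    (∀ n : ℕ, 1 ≤ n → ∀ c ∈ Z d n, N62a1eb23.IsAttractingCycle (f d c) n 0) ∧
    -- (A) the counts
    (∀ (χ : ℝ) (c₀ : ℂ), Lyapunov d χ c₀ → Counts d χ (Real.log d / χ) c₀) ∧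
    -- (B) the exact periods of the superattracting parameters in small discs
    (∀ (χ : ℝ) (c₀ : ℂ), Lyapunov d χ c₀ → ∀ ε : ℝ, 0 < ε → ε ≤ 1 / 8 →
      ∃ r₀ : ℝ, 0 < r₀ ∧ ∀ r : ℝ, 0 < r → r < r₀ → ∀ n : ℕ, 1 ≤ n →
        ((n : ℝ) < (1 - ε) * Real.log (1 / r) / χ → near c₀ r (Z d n) = ∅) ∧
        ((1 + ε) * Real.log (1 / r) / χ ≤ n → (near c₀ r (E d n)).Nonempty)) ∧
    -- (C) the distance to the parameters of exact period `n`
    (∀ (χ : ℝ) (c₀ : ℂ), Lyapunov d χ c₀ →
      Tendsto (fun n : ℕ => -Real.log (infDist c₀ (E d n)) / n) atTop (𝓝 χ)) ∧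
    -- (D) almost every ray
    (∃ ψ : ℂ → ℂ, IsExteriorMap (M d) ψ) ∧
    ∀ ψ : ℂ → ℂ, IsExteriorMap (M d) ψ → ∀ᵐ θ : ℝ, ∃ c₀ ∈ frontier (M d),
      Tendsto (fun r : ℝ => ψ (r * Complex.exp (θ * Complex.I))) (𝓝[>] 1) (𝓝 c₀) ∧
      Lyapunov d (Real.log d) c₀ ∧ Counts d (Real.log d) 1 c₀ := by
  have hdR : (2 : ℝ) ≤ d := by exact_mod_cast hd
  have hd0 : (0 : ℝ) < d := by linarith
  have hlogd : 0 < Real.log d := Real.log_pos (by linarith)
  have hA : ∀ (χ : ℝ) (c₀ : ℂ), Lyapunov d χ c₀ → Counts d χ (Real.log d / χ) c₀ := by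
    intro χ c₀ h ε hε hε1
    have hL : Pool.Agent.Y298.CA.Lyap d χ c₀ := h
    obtain ⟨r₀, hr₀, -, H⟩ := Pool.Agent.V1186.CN.count_main hd hL hε hε1
    exact ⟨r₀, hr₀, H⟩
  refine ⟨?_, hA, ?_, ?_, ?_, ?_⟩
  · intro p hp c h0
    refine ⟨hp, h0, ?_, ?_⟩
    · have h1 : Differentiable ℂ ((f d c)^[p]) := by
        have h2 : Differentiable ℂ (f d c) := by
          unfold f
          fun_prop
        exact h2.iterate p
      exact h1 0
    · obtain ⟨q, rfl⟩ : ∃ q, p = q + 1 := ⟨p - 1, by omega⟩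
      have h2 : Differentiable ℂ (f d c) := by
        unfold f
        fun_prop
      have h3 : deriv ((f d c)^[q + 1]) 0 = deriv ((f d c)^[q]) (f d c 0) * deriv (f d c) 0 := by
        rw [Function.iterate_succ]
        exact deriv_comp 0 ((h2.iterate q) _) (h2 0)
      have h4 : deriv (f d c) 0 = 0 := by
        have h5 : HasDerivAt (f d c) (d * (0 : ℂ) ^ (d - 1)) 0 := by
          unfold f
          simpa using (hasDerivAt_pow d (0 : ℂ)).add_const c
        rw [h5.deriv, zero_pow (by omega), mul_zero]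
      rw [h3, h4, mul_zero, norm_zero]
      norm_num
  · intro χ c₀ h ε hε hε1
    have hχ : 0 < χ := h.1
    obtain ⟨r₀, hr₀, H⟩ := hA χ c₀ h ε hε hε1
    refine ⟨min r₀ 1, lt_min hr₀ one_pos, fun r hr hrr n hn => ?_⟩
    obtain ⟨h1, h2, h3⟩ := H r hr (hrr.trans_le (min_le_left _ _)) n hn
    have hr1 : r < 1 := hrr.trans_le (min_le_right _ _)
    refine ⟨fun hn1 => ?_, fun hn1 => ?_⟩
    · rw [← Set.ncard_eq_zero h1]
      have h4 : (d : ℝ) ^ n * r ^ ((1 - ε) * (Real.log d / χ)) < 1 := by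
        rw [← Real.log_neg_iff (by positivity), Real.log_mul (by positivity) (by positivity),
          Real.log_pow, Real.log_rpow hr]
        rw [one_div, Real.log_inv] at hn1
        have h5 : (n : ℝ) * Real.log d < (1 - ε) * -Real.log r / χ * Real.log d :=
          mul_lt_mul_of_pos_right hn1 hlogd
        have h6 : (1 - ε) * -Real.log r / χ * Real.log d = -((1 - ε) * (Real.log d / χ) * Real.log r) := by
          ring
        linarith
      have h5 : ((near c₀ r (Z d n)).ncard : ℝ) < 1 := h2.trans_lt h4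
      have h6 : (near c₀ r (Z d n)).ncard < 1 := by exact_mod_cast h5
      omega
    · apply Set.nonempty_of_ncard_ne_zero
      intro h0
      have h4 := h3 hn1
      rw [h0, Nat.cast_zero] at h4
      have hn0 : (0 : ℝ) < n := by exact_mod_cast hn
      have h5 : 0 < r ^ ((1 + ε) * (Real.log d / χ)) := Real.rpow_pos_of_pos hr _
      have h6 : (0 : ℝ) < 1 / (n : ℝ) ^ 3 := by positivity
      have h7 : 0 < min (r ^ ((1 + ε) * (Real.log d / χ))) (1 / (n : ℝ) ^ 3) := lt_min h5 h6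
      have h8 : 0 < (d : ℝ) ^ n * min (r ^ ((1 + ε) * (Real.log d / χ))) (1 / (n : ℝ) ^ 3) := by
        positivity
      linarith
  · intro χ c₀ h
    have hL : Pool.Agent.Y298.CA.Lyap d χ c₀ := h
    exact Pool.Agent.V1186.CN.dist_ex hd hL
  · obtain ⟨β, hβ⟩ := Pool.Agent.H713R2.exists_beta (d := d) hd
    exact ⟨_, Pool.Agent.H713R2.exteriorMap_of_beta hβ⟩
  · obtain ⟨β, hβ⟩ := Pool.Agent.H713R2.exists_beta (d := d) hd
    intro ψ hψ
    filter_upwards [Pool.Agent.Y272.TY.ae_neg' (Pool.Agent.Y272.TY.typical_all hd hβ)] with θ hθ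
    obtain ⟨c₀, A, R, h⟩ := hθ
    have h1 : Lyapunov d (Real.log d) c₀ := Pool.Agent.Y298.CA.lyap_of_typ hd hβ h
    have h2 := hA _ _ h1
    rw [div_self hlogd.ne'] at h2
    exact ⟨c₀, h.frontier hd hβ, h.tendsto_psi hβ hψ, h1, h2⟩

end Pool.Agent.Results.MP_c35c17_an.CentresInDiscs
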