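import Mathlib
import Pool.Prelude.Def_F_c31e40fa
import Pool.Agent.Y298.SH.Final

/-!
# Density of hyperbolicity near all parameters with a uniformly expanding critical orbit

Fix `d ≥ 2` and `N`. Consider the parameters `c₀` of the Multibrot set `M_d` such that the derivative
of the `N`-th iterate of `z ^ d + c₀` has modulus at least `2` at every point of the orbit of the
critical value. (So the critical point is not recurrent, and the closure of the orbit of the critical
value is an expanding set; all Misiurewicz parameters are of this kind for some `N`, but the class is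
uncountable.) They form a compact set. We prove, with ONE constant for the whole class, that every
parameter `c` of `M_d` has a superattracting parameter within `C |c - c₀| ^ (d / (d - 1))`, of period
at most `C (1 + |log |c - c₀||) ^ 2`; that the filled Julia set of `z ^ d + c` has area at most
`C |c - c₀| ^ (2 / (d - 1))`; and that holomorphic discs through `c` in a non-hyperbolic component (or
in an open subset of `M_d`) have derivative at most `C |c - c₀| ^ (d / (d - 1))`.
-/

set_option autoImplicit false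

open MeasureTheory Filter Metric

namespace Pool.Agent.Results.MP_c35c17_an.ExpandingCriticalOrbits

/-- The polynomial `z ^ d + c`. -/
def f (d : ℕ) (c : ℂ) : ℂ → ℂ := fun z => z ^ d + c

/-- The filled Julia set of `z ^ d + c`. -/
def filledJulia (d : ℕ) (c : ℂ) : Set ℂ :=
  {z | ¬ Tendsto (fun n => (f d c)^[n] z) atTop (Bornology.cobounded ℂ)}

/-- The parameters `c` of the Multibrot set for which the derivative of the `N`-th iterate of
`z ^ d + c` has modulus at least `2` at every point `f^j(c)` of the orbit of the critical value. -/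
def Expanding (d N : ℕ) : Set ℂ :=
  {c | c ∈ N62a1eb23.multibrotSet d ∧
    ∀ j : ℕ, 2 ≤ ‖deriv ((f d c)^[N]) ((f d c)^[j] c)‖}

/-- Density of hyperbolicity with the natural power `d / (d - 1)` of the distance to the parameters
with an expanding critical orbit, with a uniform constant, in the Multibrot set of every degree. -/
theorem result (d : ℕ) (hd : 2 ≤ d) (N : ℕ) :
    IsCompact (Expanding d N) ∧
    ∃ C : ℝ, 0 < C ∧ ∀ c₀ ∈ Expanding d N, ∀ c ∈ N62a1eb23.multibrotSet d, c ≠ c₀ →
      -- (1) the area of the filled Julia set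
      volume (filledJulia d c) ≤ ENNReal.ofReal (C * ‖c - c₀‖ ^ (2 / ((d : ℝ) - 1))) ∧
      -- (2) the nearest superattracting parameter, with a bound of the period
      (∃ c' : ℂ, ‖c' - c‖ ≤ C * ‖c - c₀‖ ^ ((d : ℝ) / ((d : ℝ) - 1)) ∧ ∃ p : ℕ, 1 ≤ p ∧
        (f d c')^[p] 0 = 0 ∧ N62a1eb23.IsAttractingCycle (f d c') p 0 ∧
        (p : ℝ) ≤ C * (1 + |Real.log ‖c - c₀‖|) ^ 2) ∧
      -- (3) holomorphic discs through `c` in a connected open set `V` of parameters which has no
      -- attracting cycles or is contained in the Multibrot set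
      (∀ V : Set ℂ, IsOpen V → IsPreconnected V →
        ((∀ c₁ ∈ V, ¬ ∃ m z, N62a1eb23.IsAttractingCycle (f d c₁) m z) ∨
          V ⊆ N62a1eb23.multibrotSet d) →
        ∀ γ : ℂ → ℂ, DifferentiableOn ℂ γ (ball 0 1) → (∀ t ∈ ball (0 : ℂ) 1, γ t ∈ V) → γ 0 = c →
          ‖deriv γ 0‖ ≤ C * ‖c - c₀‖ ^ ((d : ℝ) / ((d : ℝ) - 1))) := by
  have hs : ∀ c₀ ∈ Expanding d N, Pool.Agent.Y298.SH.SHyp d N c₀ := fun c₀ h =>
    Pool.Agent.Y298.SH.shyp_of_mem hd h.1 h.2
  have he : ∀ c₀, Pool.Agent.Y298.SH.SHyp d N c₀ → c₀ ∈ Expanding d N := by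
    intro c₀ h
    refine ⟨?_, h.exp⟩
    intro hT
    rw [← tendsto_norm_atTop_iff_cobounded] at hT
    obtain ⟨k, hk⟩ := ((hT.eventually_gt_atTop 2).and (eventually_ge_atTop 1)).exists
    obtain ⟨j, rfl⟩ : ∃ j, k = j + 1 := ⟨k - 1, by omega⟩
    have h1 := h.bd j
    have h2 := hk.1
    rw [Function.iterate_succ_apply, zero_pow (by omega), zero_add] at h2
    exact absurd h1 (not_le.2 h2)
  have heq : Expanding d N = {c₀ : ℂ | Pool.Agent.Y298.SH.SHyp d N c₀} := by
    ext c₀
    exact ⟨hs c₀, he c₀⟩
  refine ⟨?_, ?_⟩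
  · rw [heq]
    exact Pool.Agent.Y298.SH.isCompact_SHyp d N
  · obtain ⟨C, hC, H⟩ := Pool.Agent.Y298.SH.upper_uniform hd N
    exact ⟨C, hC, fun c₀ hc₀ => H c₀ (hs c₀ hc₀)⟩

end Pool.Agent.Results.MP_c35c17_an.ExpandingCriticalOrbits
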