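import Mathlib
import Pool.Prelude.Def_F_c31e40fa
import Pool.Agent.V1186.CN.Typ

/-!
# The smallest period of a superattracting parameter near a parameter of the Multibrot set

Let `c₀` be a parameter of the Multibrot set `M_d` and let `gap d c₀ n` be the distance from `c₀` to the
set of the parameters `c` for which the critical point `0` of `z ^ d + c` is periodic of a period at
most `n`. We estimate it from above and from below in terms of the derivatives of the iterates of
`z ^ d + c₀` at the critical value: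

* (A) at all Collet-Eckmann parameters, with one constant for the whole class;
* (B) up to a factor, if the orbit of the critical value is uniformly expanding;
* (C) if the critical value has a Lyapunov exponent `χ > 0`, then `gap = exp(-(χ + o(1)) n)`, and the
  smallest period of a superattracting parameter in the disc of radius `r` is `(1/χ + o(1)) log (1/r)`;
* (D) the landing point of almost every parameter ray: the gap is, up to a power of `n`, the inverse of
  the largest of the first `n` derivatives, and `|log gap + n log d| ≤ 33 √(n log d log log n)`.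
-/

set_option autoImplicit false

open Set Filter Metric MeasureTheory Topology

namespace Pool.Agent.Results.MP_c35c17_an.SmallestPeriod

open Pool.Agent.H713R2 (IsExteriorMap)

/-- The polynomial `z ^ d + c`. -/
def f (d : ℕ) (c : ℂ) : ℂ → ℂ := fun z => z ^ d + c

/-- The Multibrot set `M_d`. -/
def M (d : ℕ) : Set ℂ := N62a1eb23.multibrotSet d

/-- The superattracting parameters of period at most `n`: the parameters `c` for which the critical
point `0` is periodic under `z ^ d + c`, of a period at most `n`. -/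
def centres (d n : ℕ) : Set ℂ := {c | ∃ p : ℕ, 1 ≤ p ∧ p ≤ n ∧ (f d c)^[p] 0 = 0}

/-- The distance from `c` to the superattracting parameters of period at most `n`. -/
noncomputable def gap (d : ℕ) (c : ℂ) (n : ℕ) : ℝ := infDist c (centres d n)

/-- The smallest period of a superattracting parameter at distance less than `r` from `c`. -/
noncomputable def period (d : ℕ) (c : ℂ) (r : ℝ) : ℕ :=
  sInf {n : ℕ | ∃ c' ∈ centres d n, ‖c' - c‖ < r}

/-- The modulus of the derivative of the `n`-th iterate at the critical value. -/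
noncomputable def der (d : ℕ) (c : ℂ) (n : ℕ) : ℝ := ‖deriv ((f d c)^[n]) c‖

/-- The largest of the numbers `der d c j`, `j ≤ n`. -/
noncomputable def maxDer (d : ℕ) (c : ℂ) (n : ℕ) : ℝ :=
  (Finset.range (n + 1)).sup' ⟨0, Finset.mem_range.2 (Nat.succ_pos n)⟩ fun j => der d c j

/-- The critical value of `z ^ d + c`, `c ∈ M_d`, has the Lyapunov exponent `χ > 0`. -/
def Lyapunov (d : ℕ) (χ : ℝ) (c : ℂ) : Prop :=
  0 < χ ∧ c ∈ M d ∧ Tendsto (fun n : ℕ => Real.log (der d c n) / n) atTop (𝓝 χ)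

/-- `√(n log d log log n)` -/
noncomputable def lil (d n : ℕ) : ℝ := √(n * Real.log d * Real.log (Real.log n))

/-- The distance to the superattracting parameters of period at most `n`, and the smallest period of a
superattracting parameter at distance less than `r`. -/
theorem result (d : ℕ) (hd : 2 ≤ d) :
    -- (0) these parameters have an attracting cycle
    (∀ n : ℕ, ∀ c ∈ centres d n, ∃ m z, N62a1eb23.IsAttractingCycle (f d c) m z) ∧
    -- (A) Collet-Eckmann parameters
    (∀ C₁ lam : ℝ, 1 ≤ C₁ → 1 < lam → ∃ K : ℝ, 1 ≤ K ∧ ∀ c₀ ∈ M d,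
      (∀ n : ℕ, lam ^ n ≤ C₁ * der d c₀ n) → ∀ n : ℕ,
        gap d c₀ (n + 1) * maxDer d c₀ n ≤ K ∧
        1 ≤ K * (gap d c₀ (n + 1) *
          ∑ j ∈ Finset.range (n + 1), der d c₀ j / ‖(f d c₀)^[j] c₀‖)) ∧
    -- (B) expanding critical orbits
    (∀ N : ℕ, ∃ K : ℝ, 1 ≤ K ∧ ∀ c₀ ∈ M d,
      (∀ j : ℕ, 2 ≤ ‖deriv ((f d c₀)^[N]) ((f d c₀)^[j] c₀)‖) → ∀ n : ℕ,
        1 / K ≤ gap d c₀ (n + 1) * der d c₀ n ∧ gap d c₀ (n + 1) * der d c₀ n ≤ K) ∧
    -- (C) Lyapunov exponents
    (∀ (χ : ℝ) (c₀ : ℂ), Lyapunov d χ c₀ →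
      Tendsto (fun n : ℕ => -Real.log (gap d c₀ n) / n) atTop (𝓝 χ) ∧
      Tendsto (fun r : ℝ => Real.log (1 / r) / period d c₀ r) (𝓝[>] 0) (𝓝 χ)) ∧
    -- (D) almost every ray
    (∃ ψ : ℂ → ℂ, IsExteriorMap (M d) ψ) ∧
    ∀ ψ : ℂ → ℂ, IsExteriorMap (M d) ψ → ∀ᵐ θ : ℝ, ∃ c₀ ∈ frontier (M d),
      Tendsto (fun r : ℝ => ψ (r * Complex.exp (θ * Complex.I))) (𝓝[>] 1) (𝓝 c₀) ∧
      Lyapunov d (Real.log d) c₀ ∧
      (∃ B : ℝ, ∀ n : ℕ,
        |Real.log (gap d c₀ (n + 1)) + Real.log (maxDer d c₀ n)| ≤ B * Real.log (n + 2)) ∧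
      (∀ᶠ n : ℕ in atTop, |Real.log (maxDer d c₀ n) - n * Real.log d| ≤ 32 * lil d n) ∧
      (∀ᶠ n : ℕ in atTop, |Real.log (gap d c₀ n) + n * Real.log d| ≤ 33 * lil d n) ∧
      ∀ᶠ r : ℝ in 𝓝[>] 0,
        |Real.log r + period d c₀ r * Real.log d| ≤ 34 * lil d (period d c₀ r) := by
  refine ⟨?_, ?_, ?_, ?_, ?_, ?_⟩
  · rintro n c ⟨p, hp, -, h0⟩
    refine ⟨p, 0, hp, h0, ?_, ?_⟩
    · have h1 : Differentiable ℂ ((f d c)^[p]) := by
        have h2 : Differentiable ℂ (f d c) := by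
          unfold f
          fun_prop
        exact h2.iterate p
      exact h1 0
    · obtain ⟨q, rfl⟩ : ∃ q, p = q + 1 := ⟨p - 1, by omega⟩
      have h2 : Differentiable ℂ (f d c) := by
        unfold f
        fun_prop
      have h3 : deriv ((f d c)^[q + 1]) 0 = deriv ((f d c)^[q]) (f d c 0) * deriv (f d c) 0 := by
        rw [Function.iterate_succ]
        exact deriv_comp 0 ((h2.iterate q) _) (h2 0)
      have h4 : deriv (f d c) 0 = 0 := by
        have h5 : HasDerivAt (f d c) (d * (0 : ℂ) ^ (d - 1)) 0 := by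
          unfold f
          simpa using (hasDerivAt_pow d (0 : ℂ)).add_const c
        rw [h5.deriv, zero_pow (by omega), mul_zero]
      rw [h3, h4, mul_zero, norm_zero]
      norm_num
  · intro C₁ lam hC hl
    obtain ⟨K, hK, H⟩ := Pool.Agent.V1186.CN.two_sided d C₁ lam
    refine ⟨K, hK, fun c₀ hM hce n => ?_⟩
    obtain ⟨h1, h2⟩ := H c₀ (Pool.Agent.Y298.SH.CD.cep_of_mem hd hC hl hM hce) n
    refine ⟨?_, ?_⟩
    · obtain ⟨j, hj, hmx⟩ := Pool.Agent.V1186.CN.mx_eq (d := d) (c := c₀) n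
      show Pool.Agent.V1186.CN.gap d c₀ (n + 1) * Pool.Agent.V1186.CN.mx d c₀ n ≤ K
      rw [hmx]
      exact h1 j hj
    · rw [mul_assoc] at h2
      exact h2
  · intro N
    obtain ⟨K, hK, H⟩ := Pool.Agent.V1186.CN.expanding_two_sided hd N
    have hK0 : 0 < K := by linarith
    refine ⟨K, hK, fun c₀ hM hexp n => ?_⟩
    have hbd : ∀ j, ‖Pool.Agent.Y298.SH.CD.zz d c₀ j‖ ≤ 2 := by
      intro j
      have h1 := (Pool.Agent.H712R2.mem_multibrot_iff hd c₀).mp hM (j + 1)
      rwa [← Pool.Agent.V1186.CN.zz_eq_P hd] at h1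
    obtain ⟨h1, h2⟩ := H c₀ hbd hexp n
    refine ⟨?_, h1⟩
    rw [div_le_iff₀ hK0, mul_comm]
    exact h2
  · intro χ c₀ h
    have hL : Pool.Agent.Y298.CA.Lyap d χ c₀ := h
    refine ⟨Pool.Agent.V1186.CN.lyap_gap hd hL, ?_⟩
    have h1 := Pool.Agent.V1186.CN.lyap_per hd hL
    refine h1.congr fun r => ?_
    rw [one_div, Real.log_inv]
    rfl
  · obtain ⟨β, hβ⟩ := Pool.Agent.H713R2.exists_beta (d := d) hd
    exact ⟨_, Pool.Agent.H713R2.exteriorMap_of_beta hβ⟩
  · obtain ⟨β, hβ⟩ := Pool.Agent.H713R2.exists_beta (d := d) hd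
    intro ψ hψ
    filter_upwards [Pool.Agent.Y272.TY.ae_neg' (Pool.Agent.Y272.TY.typical_all hd hβ)] with θ hθ
    obtain ⟨c₀, A, R, h⟩ := hθ
    have h1 : Lyapunov d (Real.log d) c₀ := Pool.Agent.Y298.CA.lyap_of_typ hd hβ h
    obtain ⟨B, -, hB⟩ := Pool.Agent.V1186.CN.typ_gap hd hβ h
    exact ⟨c₀, h.frontier hd hβ, h.tendsto_psi hβ hψ, h1, ⟨B, hB⟩,
      Pool.Agent.V1186.CN.typ_mx hd hβ h, Pool.Agent.V1186.CN.typ_gap_lil hd hβ h,
      Pool.Agent.V1186.CN.typ_per_lil hd hβ h⟩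

end Pool.Agent.Results.MP_c35c17_an.SmallestPeriod
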